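import Mathlib
import Pool.Agent.W765.Sta4
import Pool.Agent.W765.KB2

/-!
Images of a measure invariant under `x ↦ p x` under the powers of `x ↦ q x`: supports.
-/

set_option autoImplicit false

open MeasureTheory Filter Topology Set

namespace Pool.Agent.Zk24.IS

abbrev T := AddCircle (1 : ℝ)

/-- probability measures on the circle, weak topology, Borel sets of that topology -/
def PM : Type := ProbabilityMeasure T

noncomputable instance : TopologicalSpace PM := inferInstanceAs (TopologicalSpace (ProbabilityMeasure T))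
instance : CompactSpace PM := inferInstanceAs (CompactSpace (ProbabilityMeasure T))
instance : T2Space PM := inferInstanceAs (T2Space (ProbabilityMeasure T))
instance : TopologicalSpace.PseudoMetrizableSpace PM :=
  inferInstanceAs (TopologicalSpace.PseudoMetrizableSpace (ProbabilityMeasure T))
noncomputable instance : MeasurableSpace PM := borel PM
instance : BorelSpace PM := ⟨rfl⟩

/-- the element of the Mathlib type -/
def toP (ν : PM) : ProbabilityMeasure T := ν

/-- from the Mathlib type -/
def ofP (ν : ProbabilityMeasure T) : PM := ν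

lemma continuous_toP : Continuous toP := continuous_id (X := ProbabilityMeasure T)

lemma continuous_ofP : Continuous ofP := continuous_id (X := ProbabilityMeasure T)

/-- the underlying measure -/
def ms (ν : PM) : Measure T := (toP ν : Measure T)

instance (ν : PM) : IsProbabilityMeasure (ms ν) :=
  inferInstanceAs (IsProbabilityMeasure (toP ν : Measure T))

/-- the image under multiplication by `q` -/
noncomputable def mulP (q : ℕ) (ν : PM) : PM :=
  ofP (ProbabilityMeasure.map (toP ν)
    (f := fun x => q • x) (continuous_const_smul (T := T) q).measurable.aemeasurable)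

lemma ms_mulP (q : ℕ) (ν : PM) : ms (mulP q ν) = (ms ν).map (fun x : T => q • x) :=
  ProbabilityMeasure.toMeasure_map (toP ν)
    (continuous_const_smul (T := T) q).measurable.aemeasurable

lemma continuous_mulP (q : ℕ) : Continuous (mulP q) :=
  continuous_ofP.comp ((ProbabilityMeasure.continuous_map
    (continuous_const_smul (T := T) q)).comp continuous_toP)

lemma ms_iterate (q n : ℕ) (ν : PM) : ms ((mulP q)^[n] ν) = (ms ν).map (fun x : T => q ^ n • x) := by
  induction n with
  | zero => simp
  | succ n ih =>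
    rw [Function.iterate_succ_apply', ms_mulP, ih, Measure.map_map]
    · congr 1
      ext x
      simp only [Function.comp]
      rw [pow_succ', mul_smul]
    · exact (continuous_const_smul _).measurable
    · exact (continuous_const_smul _).measurable

lemma isOpen_gt {U : Set T} (hU : IsOpen U) (c : ENNReal) : IsOpen {ν : PM | c < ms ν U} := by
  rw [← isClosed_compl_iff, isClosed_iff_ultrafilter]
  intro ν u hu hmem
  have h1 : Tendsto toP (u : Filter PM) (𝓝 (toP ν)) := (continuous_toP.tendsto ν).mono_left hu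
  have h2 := ProbabilityMeasure.le_liminf_measure_open_of_tendsto h1 hU
  have h3 : (u : Filter PM).liminf (fun i => ms i U) ≤ c := by
    refine (Filter.liminf_le_liminf (v := fun _ => c) ?_).trans (by simp)
    filter_upwards [hmem] with i hi
    simpa using hi
  have h4 : ms ν U ≤ c := h2.trans h3
  simpa using h4

lemma isClosed_inv (p : ℕ) : IsClosed {ν : PM | mulP p ν = ν} :=
  isClosed_eq (continuous_mulP p) continuous_id

lemma mem_supp {ν : PM} {x : T} : x ∈ (ms ν).support ↔ ∀ U ∈ 𝓝 x, 0 < ms ν U :=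
  Measure.mem_support_iff_forall x

lemma smul_mem_supp {q : ℕ} {ν : PM} {x : T} (hx : x ∈ (ms ν).support) :
    q • x ∈ (ms (mulP q ν)).support := by
  rw [mem_supp] at hx ⊢
  intro U hU
  obtain ⟨V, hVU, hV, hxV⟩ := mem_nhds_iff.1 hU
  refine lt_of_lt_of_le ?_ (measure_mono hVU)
  rw [ms_mulP, Measure.map_apply (continuous_const_smul q).measurable hV.measurableSet]
  exact hx _ ((hV.preimage (continuous_const_smul q)).mem_nhds hxV)

lemma hit_supp : Pool.Agent.W765.Sta.Hit (fun ν : PM => (ms ν).support) := by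
  intro V hV
  have : {ν : PM | ((ms ν).support ∩ V).Nonempty} = {ν : PM | 0 < ms ν V} := by
    ext ν
    simp only [mem_ofPred_eq]
    constructor
    · rintro ⟨x, hx, hxV⟩
      exact mem_supp.1 hx V (hV.mem_nhds hxV)
    · intro h
      by_contra hcon
      rw [not_nonempty_iff_eq_empty, ← disjoint_iff_inter_eq_empty] at hcon
      have h1 : ms ν V ≤ ms ν (ms ν).supportᶜ := measure_mono (disjoint_left.1 hcon.symm)
      rw [Measure.measure_compl_support] at h1
      exact absurd (lt_of_lt_of_le h h1) (lt_irrefl _)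
  rw [this]
  exact (isOpen_gt hV 0).measurableSet

/-- the measures with almost all mass near a finite invariant set with at most `M` points, the
distance `δ k` depending on the number `k` of points -/
def G1 (p : ℕ) (ε : ℝ) (δ : ℕ → ℝ) (M : ℕ) : Set PM :=
  ⋃ E ∈ {E : Finset T | E.card ≤ M ∧ ∀ y ∈ E, p • y ∈ E},
    {ν : PM | ENNReal.ofReal (1 - ε) < ms ν (Metric.thickening (δ E.card) (E : Set T))}

/-- the measures giving mass more than `1 / (M + 1)` to all the balls of radius `ε / 2` centered in
`S` -/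
def G2 (S : Set T) (ε : ℝ) (M : ℕ) : Set PM :=
  ⋂ x ∈ S, {ν : PM | ENNReal.ofReal (1 / ((M : ℝ) + 1)) < ms ν (Metric.ball x (ε / 2))}

lemma isOpen_G1 (p : ℕ) (ε : ℝ) (δ : ℕ → ℝ) (M : ℕ) : IsOpen (G1 p ε δ M) :=
  isOpen_biUnion fun _ _ => isOpen_gt Metric.isOpen_thickening _

lemma isOpen_G2 {S : Set T} (hS : S.Finite) (ε : ℝ) (M : ℕ) : IsOpen (G2 S ε M) :=
  hS.isOpen_biInter fun _ _ => isOpen_gt Metric.isOpen_ball _

lemma mono_G1 (p : ℕ) (ε : ℝ) (δ : ℕ → ℝ) : Monotone (G1 p ε δ) := by
  intro M N hMN ν hν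
  simp only [G1, mem_iUnion, exists_prop] at hν ⊢
  obtain ⟨E, hE, h⟩ := hν
  exact ⟨E, ⟨hE.1.trans hMN, hE.2⟩, h⟩

lemma mono_G2 (S : Set T) (ε : ℝ) : Monotone (G2 S ε) := by
  intro M N hMN ν hν
  simp only [G2, mem_iInter] at hν ⊢
  intro x hx
  refine lt_of_le_of_lt (ENNReal.ofReal_le_ofReal ?_) (hν x hx)
  have : (M : ℝ) ≤ N := by exact_mod_cast hMN
  gcongr

/-- the times at which the image of `ν` is neither spread out nor nearly finitely supported -/
def Bad (p q : ℕ) (ε : ℝ) (δ : ℕ → ℝ) (η : ℝ) (K : ℕ) (ν : Measure T) (n : ℕ) : Prop :=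
  ¬ ((∀ x : T, ENNReal.ofReal η ≤ ν {y : T | dist (q ^ n • y) x < ε}) ∨
    ∃ E : Finset T, E.card ≤ K ∧ (∀ y ∈ E, p • y ∈ E) ∧
      ENNReal.ofReal (1 - ε) ≤ ν {y : T | ∃ z ∈ E, dist (q ^ n • y) z < δ E.card})

lemma mem_good_of {p q : ℕ} {ε : ℝ} {δ : ℕ → ℝ} {S : Set T}
    (hcov : ∀ x : T, ∃ z ∈ S, dist x z < ε / 2) {M n : ℕ} {ν : PM}
    (h : (mulP q)^[n] ν ∈ G1 p ε δ M ∪ G2 S ε M) :
    ¬ Bad p q ε δ (1 / ((M : ℝ) + 1)) M (ms ν) n := by
  have hmeas : Measurable fun x : T => q ^ n • x := (continuous_const_smul _).measurable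
  rw [Bad, not_not]
  rcases h with h | h
  · right
    simp only [G1, mem_iUnion, exists_prop] at h
    obtain ⟨E, hE, h⟩ := h
    refine ⟨E, hE.1, hE.2, ?_⟩
    have h : ENNReal.ofReal (1 - ε) <
      ms ((mulP q)^[n] ν) (Metric.thickening (δ E.card) (E : Set T)) := h
    rw [ms_iterate, Measure.map_apply hmeas Metric.isOpen_thickening.measurableSet] at h
    refine h.le.trans (measure_mono ?_)
    intro y hy
    have hy : q ^ n • y ∈ Metric.thickening (δ E.card) (E : Set T) := hy
    rw [Metric.mem_thickening_iff] at hy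
    obtain ⟨z, hz, hd⟩ := hy
    exact ⟨z, hz, hd⟩
  · left
    intro x
    obtain ⟨z, hz, hd⟩ := hcov x
    simp only [G2, mem_iInter] at h
    have h : ENNReal.ofReal (1 / ((M : ℝ) + 1)) < ms ((mulP q)^[n] ν) (Metric.ball z (ε / 2)) :=
      h z hz
    rw [ms_iterate, Measure.map_apply hmeas Metric.isOpen_ball.measurableSet] at h
    refine h.le.trans (measure_mono ?_)
    intro y hy
    have hy : dist (q ^ n • y) z < ε / 2 := hy
    change dist (q ^ n • y) x < ε
    have := dist_triangle_right (q ^ n • y) x z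
    linarith

open Classical in
/-- **Uniform dichotomy for images.** -/
theorem main {p q : ℕ} (hp : 2 ≤ p) (hq : 2 ≤ q)
    (hirr : Irrational (Real.log (p : ℝ) / Real.log (q : ℝ))) {ε : ℝ} (hε : 0 < ε) {δ : ℕ → ℝ}
    (hδ : ∀ k, 0 < δ k) :
    ∃ η : ℝ, 0 < η ∧ ∃ K N0 : ℕ, ∀ ν : Measure T, IsProbabilityMeasure ν →
      MeasurePreserving (fun x : T => p • x) ν ν → ∀ s N : ℕ, N0 ≤ N →
        (((Finset.range N).filter (fun i => Bad p q ε δ η K ν (s + i))).card : ℝ) ≤ ε * N := by
  obtain ⟨S, -, hS, hcov⟩ := finite_cover_balls_of_compact (isCompact_univ (X := T)) (half_pos hε)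
  have hcov' : ∀ x : T, ∃ z ∈ S, dist x z < ε / 2 := by
    intro x
    have := hcov (mem_univ x)
    simpa only [mem_iUnion, exists_prop, Metric.mem_ball] using this
  by_contra hcon
  push Not at hcon
  choose ν hprob hinv s N hN hcard using fun L : ℕ =>
    hcon (1 / ((L : ℝ) + 1)) (by positivity) L (L + 1)
  have hN0 : ∀ L, 0 < N L := fun L => by have := hN L; omega
  have hnt : Tendsto N atTop atTop :=
    tendsto_atTop_mono (fun L => by have := hN L; simp only [id]; omega) tendsto_id
  set V : ℕ → PM := fun L => ofP ⟨ν L, hprob L⟩ with hV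
  have hms : ∀ L, ms (V L) = ν L := fun L => rfl
  obtain ⟨P, hP, hPi, hPG⟩ := Pool.Agent.W765.KB.kb2 (continuous_mulP q) V s N hnt hN0
  -- invariance
  have hext : ∀ α β : PM, ms α = ms β → α = β := fun α β h => Subtype.ext h
  have hcomm : ∀ α : PM, mulP p (mulP q α) = mulP q (mulP p α) := by
    intro α
    apply hext
    rw [ms_mulP, ms_mulP, ms_mulP, ms_mulP, Measure.map_map, Measure.map_map]
    · congr 1
      ext x
      simp only [Function.comp]
      rw [smul_comm]
    all_goals exact (continuous_const_smul _).measurable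
  have hVinv : ∀ L, mulP p (V L) = V L := by
    intro L
    apply hext
    rw [ms_mulP, hms]
    exact (hinv L).map_eq
  have hVj : ∀ L j : ℕ, mulP p ((mulP q)^[j] (V L)) = (mulP q)^[j] (V L) := by
    intro L j
    induction j with
    | zero => exact hVinv L
    | succ j ih => rw [Function.iterate_succ_apply', hcomm, ih]
  have hPinv : ∀ᵐ α : PM ∂P, mulP p α = α := by
    rw [ae_iff]
    refine le_antisymm (hPG _ (isClosed_inv p).isOpen_compl 0 (Eventually.of_forall fun L => ?_))
      zero_le
    rw [Pool.Agent.W765.KB.emp_eq_zero (isClosed_inv p).isOpen_compl.measurableSet]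
    intro i hi
    exact hi (hVj L _)
  have hst := Pool.Agent.W765.Sta.stationary_ae hp hq
    (Pool.Agent.H705R2.mulIndep_of_irrational hp hq hirr) hPi (F := fun α : PM => (ms α).support)
    (fun α => Measure.isClosed_support) hit_supp ?_ (Eventually.of_forall fun α x hx =>
      smul_mem_supp hx)
  swap
  · filter_upwards [hPinv] with α hα x hx
    have := smul_mem_supp (q := p) hx
    rwa [hα] at this
  set Good : ℕ → Set PM := fun M => G1 p ε δ M ∪ G2 S ε M with hGood
  have hGo : ∀ M, IsOpen (Good M) := fun M => (isOpen_G1 p ε δ M).union (isOpen_G2 hS ε M)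
  have hGm : Monotone Good := fun M N h => union_subset_union (mono_G1 p ε δ h) (mono_G2 S ε h)
  have hall : ∀ᵐ α ∂P, α ∈ ⋃ M, Good M := by
    filter_upwards [hst, hPinv] with α h1 h2
    rw [mem_iUnion]
    have hful : ms α (ms α).support = 1 := by
      have h3 := Measure.measure_compl_support (μ := ms α)
      rwa [prob_compl_eq_zero_iff Measure.isClosed_support.measurableSet] at h3
    rcases h1 with h1 | h1
    · refine ⟨h1.toFinset.card, Or.inl ?_⟩
      simp only [G1, mem_iUnion, exists_prop]
      refine ⟨h1.toFinset, ⟨le_rfl, fun y hy => ?_⟩, ?_⟩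
      · rw [Finite.mem_toFinset] at hy ⊢
        have := smul_mem_supp (q := p) hy
        rwa [h2] at this
      · change ENNReal.ofReal (1 - ε) <
          ms α (Metric.thickening (δ h1.toFinset.card) (h1.toFinset : Set T))
        have h3 : ms α (Metric.thickening (δ h1.toFinset.card) (h1.toFinset : Set T)) = 1 := by
          refine le_antisymm prob_le_one ?_
          rw [← hful, Finite.coe_toFinset]
          exact measure_mono (Metric.self_subset_thickening (hδ _) _)
        rw [h3, ENNReal.ofReal_lt_one]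
        linarith
    · have hpos : ∀ x ∈ S, 0 < ms α (Metric.ball x (ε / 2)) := by
        intro x _
        have hx : x ∈ (ms α).support := by rw [h1]; trivial
        exact mem_supp.1 hx _ (Metric.ball_mem_nhds x (half_pos hε))
      have h4 : ∀ᶠ M : ℕ in atTop, ∀ x ∈ S,
          ENNReal.ofReal (1 / ((M : ℝ) + 1)) < ms α (Metric.ball x (ε / 2)) := by
        rw [hS.eventually_all]
        intro x hx
        have h5 : Tendsto (fun M : ℕ => ENNReal.ofReal (1 / ((M : ℝ) + 1))) atTop (𝓝 0) := by
          have := ENNReal.tendsto_ofReal (tendsto_one_div_add_atTop_nhds_zero_nat (𝕜 := ℝ))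
          rwa [ENNReal.ofReal_zero] at this
        exact h5.eventually (gt_mem_nhds (hpos x hx))
      obtain ⟨M, hM⟩ := h4.exists
      refine ⟨M, Or.inr ?_⟩
      simp only [G2, mem_iInter]
      exact hM
  have h1 : P (⋃ M, Good M) = 1 :=
    (mem_ae_iff_prob_eq_one (isOpen_iUnion hGo).measurableSet).1 hall
  have h2 : ∀ M, P (Good M) ≤ ENNReal.ofReal (1 - ε) := by
    intro M
    refine hPG _ (hGo M) _ ?_
    filter_upwards [eventually_ge_atTop M] with L hL
    rw [Pool.Agent.W765.KB.emp_apply (hGo M).measurableSet]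
    have h3 := Finset.card_filter_add_card_filter_not (s := Finset.range (N L))
      (fun i => Bad p q ε δ (1 / ((L : ℝ) + 1)) L (ν L) (s L + i))
    rw [Finset.card_range] at h3
    have h4 : ((Finset.range (N L)).filter (fun i => (mulP q)^[s L + i] (V L) ∈ Good M)).card ≤
        ((Finset.range (N L)).filter
          (fun i => ¬ Bad p q ε δ (1 / ((L : ℝ) + 1)) L (ν L) (s L + i))).card := by
      refine Finset.card_le_card fun i hi => ?_
      rw [Finset.mem_filter] at hi ⊢
      exact ⟨hi.1, mem_good_of hcov' (hGm hL hi.2)⟩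
    have h5 := hcard L
    set a := ((Finset.range (N L)).filter
      (fun i => Bad p q ε δ (1 / ((L : ℝ) + 1)) L (ν L) (s L + i))).card with ha
    set b := ((Finset.range (N L)).filter
      (fun i => ¬ Bad p q ε δ (1 / ((L : ℝ) + 1)) L (ν L) (s L + i))).card with hb
    set c := ((Finset.range (N L)).filter (fun i => (mulP q)^[s L + i] (V L) ∈ Good M)).card
      with hc
    have hnR : (0 : ℝ) < N L := by exact_mod_cast hN0 L
    have h6 : (c : ℝ) / N L ≤ 1 - ε := by
      have h7 : (a : ℝ) + b = N L := by exact_mod_cast h3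
      have h8 : (c : ℝ) ≤ b := by exact_mod_cast h4
      rw [div_le_iff₀ hnR]; nlinarith
    refine le_trans (le_of_eq ?_) (ENNReal.ofReal_le_ofReal h6)
    rw [ENNReal.ofReal_div_of_pos hnR, ENNReal.ofReal_natCast, ENNReal.ofReal_natCast,
      ENNReal.div_eq_inv_mul, hc]
    congr!
  have h3 : P (⋃ M, Good M) ≤ ENNReal.ofReal (1 - ε) := by
    rw [hGm.measure_iUnion]
    exact iSup_le h2
  rw [h1] at h3
  have h4 : ENNReal.ofReal (1 - ε) < 1 := by
    rw [ENNReal.ofReal_lt_one]; linarith
  exact absurd h3 (not_le.2 h4)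

/-- the same with the number of times written as a cardinality of a set -/
theorem main_ncard {p q : ℕ} (hp : 2 ≤ p) (hq : 2 ≤ q)
    (hirr : Irrational (Real.log (p : ℝ) / Real.log (q : ℝ))) {ε : ℝ} (hε : 0 < ε) {δ : ℕ → ℝ}
    (hδ : ∀ k, 0 < δ k) :
    ∃ η : ℝ, 0 < η ∧ ∃ K N0 : ℕ, ∀ ν : Measure T, IsProbabilityMeasure ν →
      MeasurePreserving (fun x : T => p • x) ν ν → ∀ s N : ℕ, N0 ≤ N →
        (({n : ℕ | s ≤ n ∧ n < s + N ∧ Bad p q ε δ η K ν n}.ncard : ℕ) : ℝ) ≤ ε * N := by
  classical
  obtain ⟨η, hη, K, N0, h⟩ := main hp hq hirr hε hδ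
  refine ⟨η, hη, K, N0, fun ν h1 h2 s N hN => le_trans (le_of_eq ?_) (h ν h1 h2 s N hN)⟩
  have h3 : {n : ℕ | s ≤ n ∧ n < s + N ∧ Bad p q ε δ η K ν n} =
      (fun i => s + i) '' (((Finset.range N).filter (fun i => Bad p q ε δ η K ν (s + i)) :
        Finset ℕ) : Set ℕ) := by
    ext n
    simp only [mem_ofPred_eq, Finset.coe_filter, Finset.mem_range, mem_image]
    constructor
    · rintro ⟨h4, h5, h6⟩
      refine ⟨n - s, ⟨by omega, ?_⟩, by omega⟩
      have : s + (n - s) = n := by omega
      rwa [this]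
    · rintro ⟨i, ⟨h4, h5⟩, rfl⟩
      exact ⟨by omega, by omega, h5⟩
  rw [h3, ncard_image_of_injective _ (fun a b hab => by simpa using hab), ncard_coe_finset]

end Pool.Agent.Zk24.IS
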